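import Pool.Agent.V5helper92.Lef.Ineq

/-!
The intersection number `Mor.deg` is well defined: at the generic point of a curve in `Z` some local
definition of `ψ` can be used, and all of them give the same number.
-/

set_option autoImplicit false

open MvPolynomial FF Pool.Agent.W603.PV Pool.Agent.W603.LV

namespace Pool.Agent.V5helper92.Lef

section

variable {L : Type} [Field L] [Algebra ℂ L] [IsFF ℂ L]

theorem infinite_places : Infinite (Place ℂ L) := by
  obtain ⟨f, hf⟩ := IsFF.exists_transcendental (k := ℂ) (K := L)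
  have h1 : ∀ c : ℂ, ∃ P : Place ℂ L, 0 < P.ord (f - algebraMap ℂ L c) := by
    intro c
    have h2 : Transcendental ℂ (f - algebraMap ℂ L c) := by
      intro h3
      apply hf
      have := h3.add (isAlgebraic_algebraMap c)
      simpa using this
    obtain ⟨S, hS, -, hS3⟩ := zeros (k := ℂ) h2
    have := IsFF.finite h2
    have hpos := Module.finrank_pos (R := IntermediateField.adjoin ℂ {f - algebraMap ℂ L c}) (M := L)
    rw [← hS3] at hpos
    obtain ⟨P, hP, -⟩ := Finset.exists_ne_zero_of_sum_ne_zero hpos.ne'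
    exact ⟨P, (hS P).1 hP⟩
  choose P hP using h1
  refine Infinite.of_injective P ?_
  intro c c' hcc
  by_contra hne
  have h3 := hP c
  have h4 := hP c'
  rw [← hcc] at h4
  have hz : ∀ c, f - algebraMap ℂ L c ≠ 0 := by
    intro c h0
    apply hf
    rw [sub_eq_zero] at h0
    rw [h0]; exact isAlgebraic_algebraMap c
  have h5 : (f - algebraMap ℂ L c) - (f - algebraMap ℂ L c') = algebraMap ℂ L (c' - c) := by
    rw [map_sub]; ring
  have h6 : c' - c ≠ 0 := sub_ne_zero.2 (Ne.symm hne)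
  have h7 : algebraMap ℂ L (c' - c) ≠ 0 := by rwa [Ne, map_eq_zero]
  have h8 := (P c).ord_sub (hz c) (hz c') (by rw [h5]; exact h7)
  rw [h5, (P c).ord_const h6] at h8
  omega

end

variable {a b M : ℕ} {Z : Closed a b}

/-- A polynomial which does not vanish at the generic point of a curve in `Z` does not vanish at some
complex point of `Z`. -/
theorem exists_point (Γ : Curve Z) {H : Poly a b} (hH : aeval (Sum.elim Γ.s Γ.x) H ≠ 0) :
    ∃ u v, Z.Mem u v ∧ eval (Sum.elim u v) H ≠ 0 := by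
  classical
  obtain ⟨T1, hT1⟩ := exists_supp (k := ℂ) Finset.univ (Sum.elim Γ.s Γ.x)
  obtain ⟨T2, hT2⟩ := exists_supp (k := ℂ) {()} (fun _ => aeval (Sum.elim Γ.s Γ.x) H)
  have hinf := infinite_places (L := Γ.L)
  obtain ⟨P, hP⟩ := Infinite.exists_notMem_finset (T1 ∪ T2)
  rw [Finset.mem_union, not_or] at hP
  have h1 : ∀ i, P.ord (Sum.elim Γ.s Γ.x i) = 0 := by
    intro i
    by_contra h
    exact hP.1 (hT1 i (Finset.mem_univ i) P h)
  have h2 : P.ord (aeval (Sum.elim Γ.s Γ.x) H) = 0 := by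
    by_contra h
    exact hP.2 (hT2 () (Finset.mem_singleton_self _) P h)
  have hreg : ∀ i, P.Reg (Sum.elim Γ.s Γ.x i) := fun i => Or.inr (h1 i).ge
  have hbij := IsAlgClosed.algebraMap_bijective_of_isIntegral (k := ℂ) (K := P.RF)
  choose w hw using fun i => hbij.2 (P.red (Sum.elim Γ.s Γ.x i))
  -- reduction of values of polynomials
  have hpol : ∀ F : Poly a b, P.Reg (aeval (Sum.elim Γ.s Γ.x) F) ∧
      algebraMap ℂ P.RF (eval w F) = P.red (aeval (Sum.elim Γ.s Γ.x) F) := by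
    intro F
    induction F using MvPolynomial.induction_on with
    | C c =>
      rw [aeval_C, eval_C]
      exact ⟨P.reg_const c, rfl⟩
    | add F G hF hG =>
      rw [map_add, map_add, map_add, P.red_add hF.1 hG.1, hF.2, hG.2]
      exact ⟨P.reg_add hF.1 hG.1, rfl⟩
    | mul_X F i hF =>
      rw [map_mul, map_mul, map_mul, aeval_X, eval_X, P.red_mul hF.1 (hreg i), hF.2, hw]
      exact ⟨P.reg_mul hF.1 (hreg i), rfl⟩
  have hW : (Sum.elim (fun i => w (Sum.inl i)) fun j => w (Sum.inr j)) = w :=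
    Sum.elim_comp_inl_inr w
  have hzero : ∀ i, w i = 0 → Sum.elim Γ.s Γ.x i = 0 := by
    intro i hi
    by_contra h
    have := P.red_ne_zero h (h1 i)
    rw [← hw i, hi, map_zero] at this
    exact this rfl
  refine ⟨fun i => w (Sum.inl i), fun j => w (Sum.inr j), ⟨?_, ?_, ?_⟩, ?_⟩
  · intro h
    apply Γ.s_ne
    funext i
    exact hzero (Sum.inl i) (congrFun h i)
  · intro h
    apply Γ.x_ne
    funext i
    exact hzero (Sum.inr i) (congrFun h i)
  · intro F hF
    have h3 := (hpol F).2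
    rw [Γ.mem F hF, P.red_zero, map_eq_zero] at h3
    rw [hW]
    exact h3
  · intro h0
    have h3 := (hpol H).2
    rw [hW] at h0
    rw [h0, map_zero] at h3
    exact P.red_ne_zero hH h2 h3.symm

/-- some local definition can be used -/
theorem Mor.exists_at (ψ : Mor Z M) (Γ : Curve Z) : ∃ t, ψ.at Γ t ≠ 0 := by
  by_contra hcon
  push Not at hcon
  obtain ⟨u, v, huv, -⟩ := exists_point Γ (H := 1) (by simp)
  obtain ⟨t, i, hti⟩ := ψ.cover u v huv
  have h1 : aeval (Sum.elim Γ.s Γ.x) (ψ.F t i) = 0 := congrFun (hcon t) i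
  -- the closure of the generic point
  obtain ⟨u', v', h', -⟩ : ∃ u v, (Z.Mem u v ∧ ∀ t i, eval (Sum.elim u v) (ψ.F t i) = 0) ∧
      eval (Sum.elim u v) (1 : Poly a b) ≠ 0 := by
    let Z' : Closed a b := ⟨Z.eqs ∪ {F | ∃ t i, F = ψ.F t i}, by
      rintro F (hF | ⟨t, i, rfl⟩)
      · exact Z.form F hF
      · exact ⟨_, _, ψ.form t i⟩⟩
    let Γ' : Curve Z' :=
      { L := Γ.L
        fin := Γ.fin
        trdeg := Γ.trdeg
        s := Γ.s
        x := Γ.x
        s_ne := Γ.s_ne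
        x_ne := Γ.x_ne
        mem := by
          rintro F (hF | ⟨t, i, rfl⟩)
          · exact Γ.mem F hF
          · exact congrFun (hcon t) i
        gen := Γ.gen }
    obtain ⟨u, v, huv, h⟩ := exists_point Γ' (H := 1) (by simp)
    exact ⟨u, v, ⟨⟨huv.1, huv.2.1, fun F hF => huv.2.2 F (Or.inl hF)⟩,
      fun t i => huv.2.2 _ (Or.inr ⟨t, i, rfl⟩)⟩, h⟩
  obtain ⟨t', i', ht'⟩ := ψ.cover u' v' h'.1
  exact ht' (h'.2 t' i')

/-- heights do not change under scaling -/
theorem pht_smul {L : Type} [Field L] [Algebra ℂ L] [IsFF ℂ L] {n : ℕ} {f : Fin (n + 1) → L}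
    (hf : f ≠ 0) {c : L} (hc : c ≠ 0) : pht ℂ (c • f) = pht ℂ f := by
  classical
  obtain ⟨T1, hT1⟩ := exists_supp (k := ℂ) Finset.univ f
  obtain ⟨T2, hT2⟩ := exists_supp (k := ℂ) {()} (fun _ => c)
  have h1 : ∀ j, ∀ P : Place ℂ L, P.ord (f j) ≠ 0 → P ∈ T1 ∪ T2 := fun j P hP =>
    Finset.mem_union_left _ (hT1 j (Finset.mem_univ j) P hP)
  have h2 : ∀ P : Place ℂ L, P.ord c ≠ 0 → P ∈ T1 ∪ T2 := fun P hP =>
    Finset.mem_union_right _ (hT2 () (Finset.mem_singleton_self _) P hP)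
  have h3 : ∀ j, ∀ P : Place ℂ L, P.ord ((c • f) j) ≠ 0 → P ∈ T1 ∪ T2 := by
    intro j P hP
    by_contra hcon
    apply hP
    rw [Pi.smul_apply, smul_eq_mul]
    by_cases hj : f j = 0
    · rw [hj, mul_zero, P.ord_zero]
    rw [P.ord_mul hc hj]
    have h4 : P.ord c = 0 := by by_contra h; exact hcon (h2 P h)
    have h5 : P.ord (f j) = 0 := by by_contra h; exact hcon (h1 j P h)
    rw [h4, h5]; rfl
  have hcf : c • f ≠ 0 := smul_ne_zero hc hf
  rw [pht_eq hcf _ h3, pht_eq hf _ h1]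
  have h6 : ∀ P : Place ℂ L, pord P (c • f) = P.ord c + pord P f := by
    intro P
    obtain ⟨j, hj, hj'⟩ := exists_pord P (Function.ne_iff.1 hf)
    obtain ⟨i, hi, hi'⟩ := exists_pord P (Function.ne_iff.1 hcf)
    have hfi : f i ≠ 0 := fun h => hi (by simp [h])
    have h7 := pord_le P hfi
    have h8 : pord P (c • f) ≤ P.ord ((c • f) j) :=
      pord_le P (by rw [Pi.smul_apply, smul_eq_mul]; exact mul_ne_zero hc hj)
    rw [Pi.smul_apply, smul_eq_mul, P.ord_mul hc hj] at h8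
    rw [Pi.smul_apply, smul_eq_mul, P.ord_mul hc hfi] at hi'
    omega
  have h9 : ∑ P ∈ T1 ∪ T2, P.ord c = 0 := sum_ord_finset _ _ h2
  rw [Finset.sum_congr rfl fun P _ => by rw [h6 P, neg_add], Finset.sum_add_distrib,
    Finset.sum_neg_distrib, h9, neg_zero, zero_add]

/-- **The intersection number is well defined**: every local definition of `ψ` at the generic point of
`Γ` can be used. -/
theorem Mor.deg_eq (ψ : Mor Z M) (Γ : Curve Z) {t : ψ.ι} (ht : ψ.at Γ t ≠ 0) :
    ψ.deg Γ = hdeg (ψ.at Γ t) := by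
  have h : ∃ t, ψ.at Γ t ≠ 0 := ⟨t, ht⟩
  rw [Mor.deg_of ψ Γ h, hdeg_eq]
  set t' := h.choose with ht'
  have hne : ψ.at Γ t' ≠ 0 := h.choose_spec
  have hglue : ∀ i j, ψ.at Γ t i * ψ.at Γ t' j = ψ.at Γ t j * ψ.at Γ t' i := by
    intro i j
    by_contra hcon
    have h1 : aeval (Sum.elim Γ.s Γ.x) (ψ.F t i * ψ.F t' j - ψ.F t j * ψ.F t' i) ≠ 0 := by
      rw [map_sub, map_mul, map_mul]
      exact sub_ne_zero.2 hcon
    obtain ⟨u, v, huv, h2⟩ := exists_point Γ h1
    apply h2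
    rw [map_sub, ψ.glue t t' i j u v huv, sub_self]
  obtain ⟨i, hi⟩ := Function.ne_iff.1 ht
  have h3 : ψ.at Γ t' = (ψ.at Γ t' i / ψ.at Γ t i) • ψ.at Γ t := by
    funext j
    have h4 := hglue i j
    simp only [Pi.zero_apply] at hi
    rw [Pi.smul_apply, smul_eq_mul, div_mul_eq_mul_div, eq_div_iff hi]
    linear_combination h4
  have h5 : ψ.at Γ t' i / ψ.at Γ t i ≠ 0 := by
    intro h6
    rw [h6, zero_smul] at h3
    exact hne h3
  rw [h3, pht_smul ht h5]

end Pool.Agent.V5helper92.Lef
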