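import Pool.Agent.V5helper92.Lef.Defs
import Pool.Agent.W603.PV.Hgt

/-! The valuations of `Defs.lean` are the places of the library of function fields. -/

set_option autoImplicit false

open MvPolynomial FF Pool.Agent.W603.PV

namespace Pool.Agent.V5helper92.Lef

variable {L : Type} [Field L] [Algebra ℂ L]

/-- valuations are places -/
def valEquiv (L : Type) [Field L] [Algebra ℂ L] : Val L ≃ Place ℂ L where
  toFun v :=
    { ord := v.ord
      ord_zero := v.ord_zero
      ord_mul := fun hf hg => v.ord_mul _ _ hf hg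
      ord_add := fun hf hg h => v.ord_add _ _ hf hg h
      ord_const := fun hc => v.ord_const _ hc
      surj := v.surj }
  invFun P :=
    { ord := P.ord
      ord_zero := P.ord_zero
      ord_mul := fun _ _ hf hg => P.ord_mul hf hg
      ord_add := fun _ _ hf hg h => P.ord_add hf hg h
      ord_const := fun _ hc => P.ord_const hc
      surj := P.surj }
  left_inv _ := rfl
  right_inv _ := rfl

theorem hdeg_eq {M : ℕ} (f : Fin (M + 1) → L) : hdeg f = pht ℂ f := by
  unfold hdeg pht
  congr 1
  exact finsum_comp_equiv (valEquiv L) (f := fun P : Place ℂ L => pord P f)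

instance {a b : ℕ} {Z : Closed a b} (Γ : Curve Z) : IsFF ℂ Γ.L := ⟨Γ.fin, Γ.trdeg⟩

theorem Mor.deg_of {a b M : ℕ} {Z : Closed a b} (ψ : Mor Z M) (Γ : Curve Z)
    (h : ∃ t, ψ.at Γ t ≠ 0) : ψ.deg Γ = pht ℂ (ψ.at Γ h.choose) := by
  unfold Mor.deg
  rw [dif_pos h, hdeg_eq]

end Pool.Agent.V5helper92.Lef
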