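import Mathlib

/-!
# Cones of curves on closed subsets of `ℙ^a × ℙ^b`

Closed subsets of a product of two complex projective spaces (for `b = 0` these are all complex
projective varieties), their curves, their morphisms to projective spaces, numerical equivalence of
one-cycles, the space `N_1`, the closed cone `Eff_1`, and the push-forward `i_*`.
-/

set_option autoImplicit false

open MvPolynomial

namespace Pool.Agent.V5helper92.Lef

/-! ### Closed subsets of `ℙ^a × ℙ^b` -/

/-- Complex polynomials in the homogeneous coordinates `s_0, …, s_a` of `ℙ^a` and `x_0, …, x_b` of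
`ℙ^b`. -/
abbrev Poly (a b : ℕ) : Type := MvPolynomial (Fin (a + 1) ⊕ Fin (b + 1)) ℂ

/-- `F` is a form of bidegree `(p, q)`: all its monomials have degree `p` in `s_0, …, s_a` and degree
`q` in `x_0, …, x_b`. -/
def IsForm {a b : ℕ} (F : Poly a b) (p q : ℕ) : Prop :=
  ∀ m ∈ F.support, ∑ i, m (Sum.inl i) = p ∧ ∑ j, m (Sum.inr j) = q

/-- A closed subset of `ℙ^a × ℙ^b`, given by a set of forms. -/
structure Closed (a b : ℕ) where
  /-- the equations -/
  eqs : Set (Poly a b)
  /-- they are forms -/
  form : ∀ F ∈ eqs, ∃ p q, IsForm F p q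

/-- `(u, v)` are homogeneous coordinates of a point of the closed subset `Z` of `ℙ^a × ℙ^b`. -/
def Closed.Mem {a b : ℕ} (Z : Closed a b) (u : Fin (a + 1) → ℂ) (v : Fin (b + 1) → ℂ) : Prop :=
  u ≠ 0 ∧ v ≠ 0 ∧ ∀ F ∈ Z.eqs, eval (Sum.elim u v) F = 0

/-- A morphism `ψ` from `Z` to `ℙ^M`. Locally on `Z` it is given by `M + 1` forms of equal bidegree
without common zero: `ψ = (F t 0 : … : F t M)` at the points of `Z` at which not all `F t i` vanish,
for `t` in an index set, such that these open sets cover `Z` and the local definitions agree. -/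
structure Mor {a b : ℕ} (Z : Closed a b) (M : ℕ) where
  /-- the index set -/
  ι : Type
  /-- the forms -/
  F : ι → Fin (M + 1) → Poly a b
  /-- their bidegrees -/
  bideg : ι → ℕ × ℕ
  /-- they are forms of these bidegrees -/
  form : ∀ t i, IsForm (F t i) (bideg t).1 (bideg t).2
  /-- the local definitions agree -/
  glue : ∀ t t' i j u v, Z.Mem u v →
    eval (Sum.elim u v) (F t i * F t' j) = eval (Sum.elim u v) (F t j * F t' i)
  /-- the map is defined everywhere on `Z` -/
  cover : ∀ u v, Z.Mem u v → ∃ t i, eval (Sum.elim u v) (F t i) ≠ 0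

/-! ### Curves and intersection numbers -/

/-- An integral curve in `Z`, given by its function field `L` and by the homogeneous coordinates
`(s, x)` in `L` of its generic point: `L` is a finitely generated extension of `ℂ` of transcendence
degree one, the point `(s, x)` is in `Z`, and `L` is generated by the ratios of the coordinates. -/
structure Curve {a b : ℕ} (Z : Closed a b) where
  /-- the function field -/
  L : Type
  /-- it is a field -/
  [fieldL : Field L]
  /-- it contains the complex numbers -/
  [algL : Algebra ℂ L]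
  /-- it is finitely generated -/
  fin : Algebra.EssFiniteType ℂ L
  /-- it has transcendence degree one -/
  trdeg : Algebra.trdeg ℂ L = 1
  /-- the coordinates of the generic point in `ℙ^a` -/
  s : Fin (a + 1) → L
  /-- the coordinates of the generic point in `ℙ^b` -/
  x : Fin (b + 1) → L
  /-- they are not all zero -/
  s_ne : s ≠ 0
  /-- they are not all zero -/
  x_ne : x ≠ 0
  /-- the generic point is in `Z` -/
  mem : ∀ F ∈ Z.eqs, aeval (Sum.elim s x) F = 0
  /-- the residue field of the generic point is `L` -/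
  gen : IntermediateField.adjoin ℂ ({f | ∃ i j, f = s i / s j} ∪ {f | ∃ i j, f = x i / x j}) = ⊤

attribute [instance] Curve.fieldL Curve.algL

/-- A normalised discrete valuation of `L` which is trivial on `ℂ` (a point of the smooth projective
curve with the function field `L`). The value `ord 0 = 0` is a convention. -/
@[ext] structure Val (L : Type) [Field L] [Algebra ℂ L] where
  /-- the order of an element of `L` -/
  ord : L → ℤ
  /-- a convention -/
  ord_zero : ord 0 = 0
  /-- multiplicativity -/
  ord_mul : ∀ f g : L, f ≠ 0 → g ≠ 0 → ord (f * g) = ord f + ord g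
  /-- the order of a sum -/
  ord_add : ∀ f g : L, f ≠ 0 → g ≠ 0 → f + g ≠ 0 → min (ord f) (ord g) ≤ ord (f + g)
  /-- constants have the order zero -/
  ord_const : ∀ c : ℂ, c ≠ 0 → ord (algebraMap ℂ L c) = 0
  /-- the valuation is normalised -/
  surj : ∃ t : L, t ≠ 0 ∧ ord t = 1

/-- The degree of `O(1)` at a point of `ℙ^M` with homogeneous coordinates `f_0, …, f_M` in `L`, that is
on the smooth projective curve with the function field `L`: minus the sum over all valuations of the
minimum of the orders of the nonzero `f_i`. -/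
noncomputable def hdeg {L : Type} [Field L] [Algebra ℂ L] {M : ℕ} (f : Fin (M + 1) → L) : ℤ :=
  - ∑ᶠ v : Val L, ⨅ i : {i // f i ≠ 0}, v.ord (f i)

/-- The homogeneous coordinates of the image under `ψ` of the generic point of the curve `Γ`, in the
local definition of `ψ` with index `t`. -/
noncomputable def Mor.at {a b M : ℕ} {Z : Closed a b} (ψ : Mor Z M) (Γ : Curve Z) (t : ψ.ι) :
    Fin (M + 1) → Γ.L :=
  fun i => aeval (Sum.elim Γ.s Γ.x) (ψ.F t i)

open Classical in
/-- The intersection number `(ψ^* O(1) · Γ)`, that is the degree of the pull-back of `O(1)` to the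
normalisation of `Γ`. Any index `t` of a local definition of `ψ` at the generic point of `Γ` can be used
(such an index exists by `Mor.exists_at`, and all give the same number by `Mor.deg_eq`, in
`Well.lean`). -/
noncomputable def Mor.deg {a b M : ℕ} {Z : Closed a b} (ψ : Mor Z M) (Γ : Curve Z) : ℤ :=
  if h : ∃ t, ψ.at Γ t ≠ 0 then hdeg (ψ.at Γ h.choose) else 0

/-! ### Numerical equivalence and `Eff_1` -/

/-- One-cycles with real coefficients on `Z`. -/
abbrev Cycle {a b : ℕ} (Z : Closed a b) : Type 1 := Curve Z →₀ ℝ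

/-- The intersection number `(ψ^* O(1) · z)` for a one-cycle `z`. -/
noncomputable def Mor.degCycle {a b M : ℕ} {Z : Closed a b} (ψ : Mor Z M) : Cycle Z →ₗ[ℝ] ℝ :=
  Finsupp.linearCombination ℝ fun Γ : Curve Z => (ψ.deg Γ : ℝ)

/-- The one-cycles which are numerically equivalent to zero: those which have degree zero with respect
to `ψ^* O(1)` for all morphisms `ψ` of `Z` to projective spaces. (Each Cartier divisor on the projective
scheme `Z` is the difference of two very ample ones, so this is the same as degree zero with respect to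
all Cartier divisors.) -/
def numTriv {a b : ℕ} (Z : Closed a b) : Submodule ℝ (Cycle Z) where
  carrier := {z | ∀ (M : ℕ) (ψ : Mor Z M), ψ.degCycle z = 0}
  zero_mem' := fun _ ψ => map_zero ψ.degCycle
  add_mem' := fun {z w} hz hw M ψ => by rw [map_add, hz M ψ, hw M ψ, add_zero]
  smul_mem' := fun r z hz M ψ => by rw [map_smul, hz M ψ, smul_zero]

/-- `N_1(Z)`: one-cycles with real coefficients modulo numerical equivalence. -/
abbrev N1 {a b : ℕ} (Z : Closed a b) : Type 1 := Cycle Z ⧸ numTriv Z

/-- The classes of the effective one-cycles with real coefficients: the convex cone spanned by the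
classes of the curves. -/
def effClasses {a b : ℕ} (Z : Closed a b) : Set (N1 Z) :=
  {ξ | ∃ z : Cycle Z, (∀ Γ, 0 ≤ z Γ) ∧ (numTriv Z).mkQ z = ξ}

/-- `Eff_1(Z)`: the closure of the convex cone spanned by the classes of curves, in the usual topology
of the finite-dimensional real vector space `N_1(Z)` (Mathlib: the module topology). -/
def Eff1 {a b : ℕ} (Z : Closed a b) : Set (N1 Z) :=
  @closure (N1 Z) (moduleTopology ℝ (N1 Z)) (effClasses Z)

/-! ### The push-forward -/

/-- A curve in `X` is a curve in `Y` if the equations of `Y` are among those of `X`. -/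
def Curve.incl {a b : ℕ} {X Y : Closed a b} (h : Y.eqs ⊆ X.eqs) (Γ : Curve X) : Curve Y where
  L := Γ.L
  fin := Γ.fin
  trdeg := Γ.trdeg
  s := Γ.s
  x := Γ.x
  s_ne := Γ.s_ne
  x_ne := Γ.x_ne
  mem := fun F hF => Γ.mem F (h hF)
  gen := Γ.gen

/-- The restriction of a morphism `ψ` from `Y` to a closed subset `X`. -/
def Mor.restrict {a b M : ℕ} {X Y : Closed a b} (h : Y.eqs ⊆ X.eqs) (ψ : Mor Y M) : Mor X M where
  ι := ψ.ι
  F := ψ.F
  bideg := ψ.bideg
  form := ψ.form
  glue := fun t t' i j u v hm => ψ.glue t t' i j u v ⟨hm.1, hm.2.1, fun F hF => hm.2.2 F (h hF)⟩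
  cover := fun u v hm => ψ.cover u v ⟨hm.1, hm.2.1, fun F hF => hm.2.2 F (h hF)⟩

/-- The push-forward of one-cycles. -/
noncomputable def pushCycle {a b : ℕ} {X Y : Closed a b} (h : Y.eqs ⊆ X.eqs) :
    Cycle X →ₗ[ℝ] Cycle Y :=
  Finsupp.lmapDomain ℝ ℝ (Curve.incl h)

/-- projection formula for the inclusion -/
theorem degCycle_push {a b M : ℕ} {X Y : Closed a b} (h : Y.eqs ⊆ X.eqs) (ψ : Mor Y M)
    (z : Cycle X) : ψ.degCycle (pushCycle h z) = (ψ.restrict h).degCycle z := by
  unfold Mor.degCycle pushCycle
  rw [Finsupp.lmapDomain_apply, Finsupp.linearCombination_mapDomain]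
  rfl

theorem numTriv_le {a b : ℕ} {X Y : Closed a b} (h : Y.eqs ⊆ X.eqs) :
    numTriv X ≤ (numTriv Y).comap (pushCycle h) := by
  intro z hz M ψ
  rw [degCycle_push]
  exact hz M (ψ.restrict h)

/-- The push-forward `i_* : N_1(X) → N_1(Y)` for the inclusion `i` of a closed subset `X` of `Y`. -/
noncomputable def push {a b : ℕ} {X Y : Closed a b} (h : Y.eqs ⊆ X.eqs) : N1 X →ₗ[ℝ] N1 Y :=
  (numTriv X).mapQ (numTriv Y) (pushCycle h) (numTriv_le h)

/-- The section `Y ∩ {G = 0}` of a closed subset `Y` of `ℙ^a × ℙ^b`, for a form `G` of bidegree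
`(p, q)`. -/
def Closed.cut {a b : ℕ} (Y : Closed a b) (G : Poly a b) {p q : ℕ} (hG : IsForm G p q) :
    Closed a b where
  eqs := Y.eqs ∪ {G}
  form := fun F hF => hF.elim (Y.form F) fun h => ⟨p, q, (Set.mem_singleton_iff.1 h).symm ▸ hG⟩

/-- `Y ∩ {G = 0}` is contained in `Y`. -/
theorem Closed.eqs_cut {a b : ℕ} (Y : Closed a b) (G : Poly a b) {p q : ℕ} (hG : IsForm G p q) :
    Y.eqs ⊆ (Y.cut G hG).eqs := Set.subset_union_left

end Pool.Agent.V5helper92.Lef
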