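import Pool.Agent.V5helper92.Lef.Defs

/-! Elimination: `b + 1` general forms of degree `E` in `b + 1` variables have no common zero. -/

set_option autoImplicit false

open MvPolynomial

namespace Pool.Agent.V5helper92.Lef

/-- the monomials of degree `e` -/
def mono (b e : ℕ) : Finset (Fin (b + 1) →₀ ℕ) := Finset.finsuppAntidiag Finset.univ e

theorem mem_mono {b e : ℕ} {α : Fin (b + 1) →₀ ℕ} : α ∈ mono b e ↔ ∑ i, α i = e := by
  simp [mono, Finset.mem_finsuppAntidiag]

/-- the exponents in the first two variables -/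
noncomputable def pr (i j : ℕ) : Fin 2 →₀ ℕ := Finsupp.equivFunOnFinite.symm ![i, j]

/-- the monomial `s_0^(D-j) s_1^j x^α` -/
noncomputable def idx {b : ℕ} (D j : ℕ) (α : Fin (b + 1) →₀ ℕ) : (Fin 2 ⊕ Fin (b + 1)) →₀ ℕ :=
  Finsupp.sumElim (pr (D - j) j) α

theorem idx_inj {b D j j' : ℕ} {α α' : Fin (b + 1) →₀ ℕ} (h : idx D j α = idx D j' α') :
    j = j' ∧ α = α' := by
  constructor
  · have := DFunLike.congr_fun h (Sum.inl 1)
    simpa [idx, pr] using this
  · ext i
    have := DFunLike.congr_fun h (Sum.inr i)
    simpa [idx] using this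

/-- the value of the coefficient of `s_0^(D-j) s_1^j` -/
noncomputable def sl {b : ℕ} {L : Type*} [Field L] (D E : ℕ) (c : ((Fin 2 ⊕ Fin (b + 1)) →₀ ℕ) → L)
    (x : Fin (b + 1) → L) (j : ℕ) : L :=
  ∑ α ∈ mono b E, c (idx D j α) * ∏ i, x i ^ α i

theorem aeval_eq {b D E : ℕ} {L : Type*} [Field L] [Algebra ℂ L] {G : Poly 1 b} (hG : IsForm G D E)
    (s : Fin 2 → L) (x : Fin (b + 1) → L) :
    aeval (Sum.elim s x) G = ∑ j ∈ Finset.range (D + 1),
      s 0 ^ (D - j) * s 1 ^ j * sl D E (fun m => algebraMap ℂ L (coeff m G)) x j := by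
  classical
  rw [aeval_def, eval₂_eq']
  let φ : ((Fin 2 ⊕ Fin (b + 1)) →₀ ℕ) → L := fun m =>
    algebraMap ℂ L (coeff m G) * ∏ i, (Sum.elim s x) i ^ m i
  have h1 : ∑ m ∈ G.support, φ m =
      ∑ m ∈ ((Finset.range (D + 1)) ×ˢ mono b E).image (fun p => idx D p.1 p.2), φ m := by
    apply Finset.sum_subset
    · intro m hm
      obtain ⟨h2, h3⟩ := hG m hm
      rw [Finset.mem_image]
      refine ⟨(m (Sum.inl 1), m.comapDomain Sum.inr Sum.inr_injective.injOn), ?_, ?_⟩
      · rw [Finset.mem_product, mem_mono, Finset.mem_range]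
        refine ⟨?_, by simpa using h3⟩
        rw [Fin.sum_univ_two] at h2
        simp only; omega
      · rw [Fin.sum_univ_two] at h2
        ext i
        rcases i with i | i
        · fin_cases i
          · simp [idx, pr]; omega
          · simp [idx, pr]
        · simp [idx]
    · intro m _ hm
      have : coeff m G = 0 := by simpa using hm
      simp [φ, this]
  change ∑ m ∈ G.support, φ m = _
  rw [h1, Finset.sum_image, Finset.sum_product]
  · refine Finset.sum_congr rfl fun j _ => ?_
    rw [sl, Finset.mul_sum]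
    refine Finset.sum_congr rfl fun α _ => ?_
    simp only [φ, Fintype.prod_sum_type, Sum.elim_inl, Sum.elim_inr]
    simp [idx, pr]
    ring
  · intro p _ q _ h
    obtain ⟨h1, h2⟩ := idx_inj h
    exact Prod.ext h1 h2

section Mac

variable {b D E : ℕ}

/-- the degree of the Macaulay matrix -/
def mdeg (b E : ℕ) : ℕ := (b + 1) * (E - 1) + 1

theorem exists_big (α : {α // α ∈ mono b (mdeg b E)}) : ∃ i, E ≤ α.1 i := by
  by_contra hcon
  push Not at hcon
  have h1 := mem_mono.1 α.2
  have h2 : ∑ i, α.1 i ≤ ∑ _i : Fin (b + 1), (E - 1) :=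
    Finset.sum_le_sum fun i _ => by have := hcon i; omega
  rw [h1] at h2
  simp [mdeg] at h2

/-- an index with exponent at least `E` -/
noncomputable def big (α : {α // α ∈ mono b (mdeg b E)}) : Fin (b + 1) := (exists_big α).choose

theorem big_spec (α : {α // α ∈ mono b (mdeg b E)}) : E ≤ α.1 (big α) := (exists_big α).choose_spec

/-- the monomial multiplier -/
noncomputable def mul' (α : {α // α ∈ mono b (mdeg b E)}) : Fin (b + 1) →₀ ℕ :=
  α.1 - Finsupp.single (big α) E

theorem mul'_add (α : {α // α ∈ mono b (mdeg b E)}) :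
    mul' α + Finsupp.single (big α) E = α.1 := by
  classical
  ext i
  simp only [mul', Finsupp.coe_add, Finsupp.coe_tsub, Pi.add_apply, Pi.sub_apply,
    Finsupp.single_apply]
  split_ifs with h
  · have := big_spec α
    subst h; omega
  · omega

open Classical in
/-- the Macaulay matrix -/
noncomputable def mac (b D E : ℕ) : Matrix {α // α ∈ mono b (mdeg b E)} {α // α ∈ mono b (mdeg b E)}
    (MvPolynomial ((Fin 2 ⊕ Fin (b + 1)) →₀ ℕ) ℂ) :=
  Matrix.of fun β α => if mul' α ≤ β.1 then X (idx D (big α) (β.1 - mul' α)) else 0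

/-- the polynomial in the coefficients -/
noncomputable def res (b D E : ℕ) : MvPolynomial ((Fin 2 ⊕ Fin (b + 1)) →₀ ℕ) ℂ := (mac b D E).det

theorem res_homogeneous :
    (res b D E).IsHomogeneous (Fintype.card {α // α ∈ mono b (mdeg b E)}) := by
  classical
  unfold res
  rw [Matrix.det_apply]
  refine IsHomogeneous.sum _ _ _ fun σ _ => ?_
  have h1 : (∏ i, mac b D E (σ i) i).IsHomogeneous
      (Fintype.card {α // α ∈ mono b (mdeg b E)}) := by
    have := IsHomogeneous.prod (Finset.univ : Finset {α // α ∈ mono b (mdeg b E)})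
      (fun i => mac b D E (σ i) i) (fun _ => 1) (fun i _ => by
        simp only [mac, Matrix.of_apply]
        split_ifs
        · exact isHomogeneous_X _ _
        · exact isHomogeneous_zero _ _ _)
    simpa using this
  rcases Int.units_eq_one_or (Equiv.Perm.sign σ) with h | h
  · rw [h, one_smul]; exact h1
  · rw [h, Units.neg_smul, one_smul]; exact h1.neg

/-- the special form `∑ s_0^(D-i) s_1^i x_i^E` -/
noncomputable def spec (b D E : ℕ) : Poly 1 b :=
  ∑ i : Fin (b + 1), monomial (idx D (i : ℕ) (Finsupp.single i E)) 1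

theorem spec_form (h : b ≤ D) : IsForm (spec b D E) D E := by
  classical
  intro m hm
  have h1 := support_sum hm
  rw [Finset.mem_biUnion] at h1
  obtain ⟨i, _, hi⟩ := h1
  have h2 := support_monomial_subset hi
  rw [Finset.mem_singleton] at h2
  have hi' := i.2
  subst h2
  constructor
  · simp [idx, pr]; omega
  · simp [idx]

theorem coeff_spec (i : Fin (b + 1)) (δ : Fin (b + 1) →₀ ℕ) [Decidable (δ = Finsupp.single i E)] :
    coeff (idx D (i : ℕ) δ) (spec b D E) = if δ = Finsupp.single i E then 1 else 0 := by
  classical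
  unfold spec
  rw [coeff_sum, Finset.sum_eq_single i]
  · rw [coeff_monomial]
    by_cases h : δ = Finsupp.single i E
    · simp [h]
    · rw [if_neg h, if_neg]
      intro h'
      exact h (idx_inj h').2.symm
  · intro j _ hj
    rw [coeff_monomial, if_neg]
    intro h'
    exact hj (Fin.ext (idx_inj h').1)
  · intro h; exact absurd (Finset.mem_univ i) h

theorem res_spec : eval (fun m => coeff m (spec b D E)) (res b D E) = 1 := by
  classical
  unfold res
  rw [RingHom.map_det]
  have : (RingHom.mapMatrix (eval fun m => coeff m (spec b D E))) (mac b D E) = 1 := by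
    ext β α
    simp only [RingHom.mapMatrix_apply, Matrix.map_apply, mac, Matrix.of_apply, Matrix.one_apply]
    by_cases h : mul' α ≤ β.1
    · rw [if_pos h, eval_X, coeff_spec]
      have h1 := mul'_add α
      congr 1
      apply propext
      constructor
      · intro h2
        apply Subtype.ext
        rw [← h1, ← h2, add_tsub_cancel_of_le h]
      · intro h2
        rw [h2, ← h1]
        conv_lhs => rw [h1, ← h1]
        rw [add_tsub_cancel_left]
    · rw [if_neg h, map_zero, if_neg]
      intro h2
      apply h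
      rw [h2]
      conv_rhs => rw [← mul'_add α]
      exact le_self_add
  rw [this, Matrix.det_one]

/-- **Elimination.** If the polynomial `res` does not vanish at the coefficients of `G`, then the
coefficients `G_j`, `j ≤ b`, of `G` have no common zero. -/
theorem exists_sl_ne {L : Type*} [Field L] [Algebra ℂ L] {G : Poly 1 b}
    (hR : eval (fun m => coeff m G) (res b D E) ≠ 0) {x : Fin (b + 1) → L} (hx : x ≠ 0) :
    ∃ j ≤ b, sl D E (fun m => algebraMap ℂ L (coeff m G)) x j ≠ 0 := by
  classical
  by_contra hcon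
  push Not at hcon
  set c : ((Fin 2 ⊕ Fin (b + 1)) →₀ ℕ) → L := fun m => algebraMap ℂ L (coeff m G) with hc
  let M : Matrix {α // α ∈ mono b (mdeg b E)} {α // α ∈ mono b (mdeg b E)} L :=
    Matrix.of fun β α => if mul' α ≤ β.1 then c (idx D (big α) (β.1 - mul' α)) else 0
  have hM : M = (RingHom.mapMatrix ((algebraMap ℂ L).comp (eval fun m => coeff m G)))
      (mac b D E) := by
    ext β α
    simp only [RingHom.mapMatrix_apply, Matrix.map_apply, mac, Matrix.of_apply, M]
    split_ifs
    · simp [hc]
    · simp
  have hdet : M.det ≠ 0 := by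
    rw [hM, ← RingHom.map_det]
    change (algebraMap ℂ L) (eval (fun m => coeff m G) (res b D E)) ≠ 0
    rwa [Ne, map_eq_zero]
  let v : {α // α ∈ mono b (mdeg b E)} → L := fun β => ∏ i, x i ^ β.1 i
  have hv : Matrix.vecMul v M = 0 := by
    funext α
    simp only [Matrix.vecMul, dotProduct, Pi.zero_apply, M, Matrix.of_apply, v]
    rw [Finset.sum_coe_sort (mono b (mdeg b E)) (fun β => (∏ i, x i ^ β i) *
      (if mul' α ≤ β then c (idx D (big α) (β - mul' α)) else 0))]
    have h0 := hcon (big α) (by have := (big α).2; omega)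
    have h1 : ∑ β ∈ mono b (mdeg b E), (∏ i, x i ^ β i) *
        (if mul' α ≤ β then c (idx D (big α) (β - mul' α)) else 0) =
        (∏ i, x i ^ (mul' α) i) * sl D E c x (big α) := by
      rw [sl, Finset.mul_sum]
      have h2 : ∑ β ∈ mono b (mdeg b E), (∏ i, x i ^ β i) *
          (if mul' α ≤ β then c (idx D (big α) (β - mul' α)) else 0) =
          ∑ β ∈ (mono b E).image (fun δ => mul' α + δ), (∏ i, x i ^ β i) *
          (if mul' α ≤ β then c (idx D (big α) (β - mul' α)) else 0) := by
        symm
        apply Finset.sum_subset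
        · intro β hβ
          rw [Finset.mem_image] at hβ
          obtain ⟨δ, hδ, rfl⟩ := hβ
          rw [mem_mono] at hδ ⊢
          have h3 := mem_mono.1 α.2
          rw [← mul'_add α] at h3
          simp only [Finsupp.coe_add, Pi.add_apply, Finset.sum_add_distrib] at h3 ⊢
          rw [hδ]
          simpa using h3
        · intro β hβ hβ'
          rw [if_neg, mul_zero]
          intro hle
          apply hβ'
          rw [Finset.mem_image]
          refine ⟨β - mul' α, ?_, add_tsub_cancel_of_le hle⟩
          rw [mem_mono] at hβ ⊢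
          have h3 := mem_mono.1 α.2
          rw [← mul'_add α] at h3
          rw [← add_tsub_cancel_of_le hle] at hβ
          simp only [Finsupp.coe_add, Pi.add_apply, Finset.sum_add_distrib] at h3 hβ
          have h4 : ∑ i, (Finsupp.single (big α) E) i = E := by simp
          rw [h4] at h3
          omega
      rw [h2, Finset.sum_image (fun δ _ δ' _ h => add_left_cancel h)]
      refine Finset.sum_congr rfl fun δ _ => ?_
      rw [if_pos le_self_add, add_tsub_cancel_left]
      simp only [Finsupp.coe_add, Pi.add_apply, pow_add, Finset.prod_mul_distrib]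
      ring
    rw [h1, h0, mul_zero]
  have hv0 := Matrix.eq_zero_of_vecMul_eq_zero hdet hv
  apply hx
  funext i
  have h5 : Finsupp.single i (mdeg b E) ∈ mono b (mdeg b E) := by
    rw [mem_mono]; simp
  have h6 := congrFun hv0 ⟨_, h5⟩
  simp only [v, Pi.zero_apply] at h6
  rw [Finset.prod_eq_single i] at h6
  · simp only [Finsupp.single_eq_same] at h6
    exact pow_eq_zero_iff (by unfold mdeg; omega) |>.1 h6
  · intro j _ hj
    simp [Ne.symm hj]
  · intro h; exact absurd (Finset.mem_univ i) h

end Mac

end Pool.Agent.V5helper92.Lef
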