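import Pool.Agent.V5helper92.Lef.Bridge

/-! Height inequalities. -/

set_option autoImplicit false

open MvPolynomial FF Pool.Agent.W603.PV Pool.Agent.W603.LV

namespace Pool.Agent.V5helper92.Lef

variable {L : Type} [Field L] [Algebra ℂ L] [IsFF ℂ L]

/-- the height is computed by a finite sum -/
theorem pht_eq {n : ℕ} {f : Fin (n + 1) → L} (hf : f ≠ 0) (T : Finset (Place ℂ L))
    (hT : ∀ j, ∀ P : Place ℂ L, P.ord (f j) ≠ 0 → P ∈ T) : pht ℂ f = ∑ P ∈ T, (- pord P f) := by
  have hf' : ∃ j, f j ≠ 0 := Function.ne_iff.1 hf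
  unfold pht
  rw [finsum_eq_sum_of_support_subset (s := T), Finset.sum_neg_distrib]
  intro P hP
  by_contra hcon
  apply hP
  obtain ⟨j, hj, h⟩ := exists_pord P hf'
  simp only
  rw [← h]
  by_contra h'; exact hcon (hT j P h')

theorem pht_nonneg {n : ℕ} {f : Fin (n + 1) → L} (hf : f ≠ 0) : 0 ≤ pht ℂ f := by
  classical
  obtain ⟨T, hT⟩ := exists_supp (k := ℂ) Finset.univ f
  have hT' : ∀ j, ∀ P : Place ℂ L, P.ord (f j) ≠ 0 → P ∈ T := fun j => hT j (Finset.mem_univ j)
  obtain ⟨j, hj⟩ : ∃ j, f j ≠ 0 := Function.ne_iff.1 hf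
  rw [pht_eq hf T hT']
  have h3 : ∑ P ∈ T, P.ord (f j) = 0 := sum_ord_finset _ T (hT' j)
  rw [← neg_zero, ← h3, ← Finset.sum_neg_distrib]
  exact Finset.sum_le_sum fun P _ => neg_le_neg (pord_le P hj)

/-- a point with one nonzero coordinate only -/
theorem pht_eq_zero {n : ℕ} {f : Fin (n + 1) → L} {j : Fin (n + 1)} (hj : f j ≠ 0)
    (h0 : ∀ i, i ≠ j → f i = 0) : pht ℂ f = 0 := by
  classical
  obtain ⟨T, hT⟩ := exists_supp (k := ℂ) Finset.univ f
  have hT' : ∀ j, ∀ P : Place ℂ L, P.ord (f j) ≠ 0 → P ∈ T := fun j => hT j (Finset.mem_univ j)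
  rw [pht_eq (fun h => hj (congrFun h j)) T hT']
  have h3 : ∑ P ∈ T, P.ord (f j) = 0 := sum_ord_finset _ T (hT' j)
  rw [← neg_zero, ← h3, ← Finset.sum_neg_distrib]
  refine Finset.sum_congr rfl fun P _ => ?_
  obtain ⟨i, hi, h⟩ := exists_pord P ⟨j, hj⟩
  have : i = j := by by_contra hne; exact hi (h0 i hne)
  rw [← h, this]

/-- The basic inequality: if `∑ s_0^(D-j) s_1^j g_j = 0`, where the `g_j` are not all zero and have
at each place at least the order of a form of degree `E` in the `x_i`, then the height of `(s_0 : s_1)`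
is at most `E` times the height of `(x_0 : … : x_b)`. -/
theorem pht_le_of_rel {b D E : ℕ} {s : Fin 2 → L} {x : Fin (b + 1) → L} (hs : s ≠ 0) (hx : x ≠ 0)
    (g : ℕ → L) (hg : ∀ j, ∀ P : Place ℂ L, Ge P (E * pord P x) (g j))
    (hne : ∃ j ≤ D, g j ≠ 0)
    (hrel : ∑ j ∈ Finset.range (D + 1), s 0 ^ (D - j) * s 1 ^ j * g j = 0) :
    pht ℂ s ≤ E * pht ℂ x := by
  classical
  have hx0 := pht_nonneg hx
  have hEx : 0 ≤ (E : ℤ) * pht ℂ x := mul_nonneg (by positivity) hx0
  by_cases h0 : s 0 = 0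
  · have h1 : s 1 ≠ 0 := by
      intro h1; apply hs; funext i; fin_cases i <;> simpa
    have := pht_eq_zero (f := s) h1 (fun i hi => by
      fin_cases i
      · exact h0
      · exact absurd rfl hi)
    rw [this]; exact hEx
  by_cases h1 : s 1 = 0
  · have := pht_eq_zero (f := s) h0 (fun i hi => by
      fin_cases i
      · exact absurd rfl hi
      · exact h1)
    rw [this]; exact hEx
  -- the first nonzero coefficient
  have hex : ∃ j, j ≤ D ∧ g j ≠ 0 := hne
  let j := Nat.find hex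
  obtain ⟨hjD, hgj⟩ : j ≤ D ∧ g j ≠ 0 := Nat.find_spec hex
  have hmin : ∀ i < j, g i = 0 := by
    intro i hi
    by_contra hcon
    exact Nat.find_min hex hi ⟨by omega, hcon⟩
  -- splitting off the term `j`
  have hsplit : s 0 ^ (D - j) * s 1 ^ j * g j =
      - ∑ i ∈ (Finset.range (D + 1)).filter (fun i => j < i), s 0 ^ (D - i) * s 1 ^ i * g i := by
    have h2 : ∑ i ∈ Finset.range (D + 1), s 0 ^ (D - i) * s 1 ^ i * g i =
        s 0 ^ (D - j) * s 1 ^ j * g j +
          ∑ i ∈ (Finset.range (D + 1)).filter (fun i => j < i), s 0 ^ (D - i) * s 1 ^ i * g i := by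
      rw [← Finset.sum_filter_add_sum_filter_not (Finset.range (D + 1)) (fun i => j < i), add_comm]
      congr 1
      refine Finset.sum_eq_single_of_mem j (by simp; omega) ?_
      intro i hi hij
      simp only [Finset.mem_filter, Finset.mem_range, not_lt] at hi
      rw [hmin i (by omega), mul_zero]
    rw [h2] at hrel
    linear_combination hrel
  -- a finite set of places
  obtain ⟨T1, hT1⟩ := exists_supp (k := ℂ) Finset.univ x
  obtain ⟨T2, hT2⟩ := exists_supp (k := ℂ) Finset.univ s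
  obtain ⟨T3, hT3⟩ := exists_supp (k := ℂ) {j} g
  set T := T1 ∪ T2 ∪ T3 with hT
  have hTx : ∀ i, ∀ P : Place ℂ L, P.ord (x i) ≠ 0 → P ∈ T := fun i P hP => by
    simp only [hT, Finset.mem_union]; exact Or.inl (Or.inl (hT1 i (Finset.mem_univ i) P hP))
  have hTs : ∀ i, ∀ P : Place ℂ L, P.ord (s i) ≠ 0 → P ∈ T := fun i P hP => by
    simp only [hT, Finset.mem_union]; exact Or.inl (Or.inr (hT2 i (Finset.mem_univ i) P hP))
  have hTg : ∀ P : Place ℂ L, P.ord (g j) ≠ 0 → P ∈ T := fun P hP => by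
    simp only [hT, Finset.mem_union]; exact Or.inr (hT3 j (Finset.mem_singleton_self j) P hP)
  rw [pht_eq hs T hTs, pht_eq hx T hTx]
  have hsum_g : ∑ P ∈ T, P.ord (g j) = 0 := sum_ord_finset _ T hTg
  have hsum_1 : ∑ P ∈ T, P.ord (s 1) = 0 := sum_ord_finset _ T (hTs 1)
  have hkey : ∀ P : Place ℂ L, E * pord P x + (P.ord (s 1) - pord P s) ≤ P.ord (g j) := by
    intro P
    obtain ⟨i0, hi0, hmi0⟩ := exists_pord P (f := s) ⟨0, h0⟩
    have hle0 := pord_le P (f := s) h0
    have hle1 := pord_le P (f := s) h1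
    have hgj' := (hg j P).resolve_left hgj
    rcases le_or_gt (P.ord (s 1)) (P.ord (s 0)) with hc | hc
    · have : pord P s = P.ord (s 1) := by
        fin_cases i0
        · simp only [Fin.zero_eta] at hmi0; omega
        · simp only [Fin.mk_one] at hmi0; omega
      rw [this]; omega
    · have hm : pord P s = P.ord (s 0) := by
        fin_cases i0
        · simp only [Fin.zero_eta] at hmi0; omega
        · simp only [Fin.mk_one] at hmi0; omega
      -- the order of the right-hand side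
      have hR : Ge P ((D - j - 1 : ℤ) * P.ord (s 0) + (j + 1 : ℤ) * P.ord (s 1) + E * pord P x)
          (s 0 ^ (D - j) * s 1 ^ j * g j) := by
        rw [hsplit]
        refine Ge.neg (Ge.sum _ _ fun i hi => ?_)
        simp only [Finset.mem_filter, Finset.mem_range] at hi
        by_cases hgi : g i = 0
        · left; rw [hgi, mul_zero]
        right
        rw [P.ord_mul (mul_ne_zero (pow_ne_zero _ h0) (pow_ne_zero _ h1)) hgi,
          P.ord_mul (pow_ne_zero _ h0) (pow_ne_zero _ h1), P.ord_pow, P.ord_pow]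
        have h5 := (hg i P).resolve_left hgi
        have h6 : ((D - i : ℕ) : ℤ) = D - i := by push_cast [Nat.cast_sub (by omega : i ≤ D)]; ring
        rw [h6]
        have h7 : (0 : ℤ) ≤ (i - j - 1 : ℤ) * (P.ord (s 1) - P.ord (s 0)) :=
          mul_nonneg (by omega) (by omega)
        nlinarith
      have hL := hR.resolve_left
        (mul_ne_zero (mul_ne_zero (pow_ne_zero _ h0) (pow_ne_zero _ h1)) hgj)
      rw [P.ord_mul (mul_ne_zero (pow_ne_zero _ h0) (pow_ne_zero _ h1)) hgj,
          P.ord_mul (pow_ne_zero _ h0) (pow_ne_zero _ h1), P.ord_pow, P.ord_pow] at hL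
      have h6 : ((D - j : ℕ) : ℤ) = D - j := by push_cast [Nat.cast_sub hjD]; ring
      rw [h6] at hL
      rw [hm]
      nlinarith
  have hsum := Finset.sum_le_sum fun P (_ : P ∈ T) => hkey P
  rw [hsum_g, Finset.sum_add_distrib, Finset.sum_sub_distrib, hsum_1, ← Finset.mul_sum] at hsum
  rw [Finset.sum_neg_distrib, Finset.sum_neg_distrib]
  linarith

end Pool.Agent.V5helper92.Lef
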