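import Pool.Agent.V5helper92.Lef.Ineq
import Pool.Agent.V5helper92.Lef.Elim

/-! The effective cone of a general hypersurface in `ℙ^1 × ℙ^b` of bidegree `(D, E)` with `b ≤ D`. -/

set_option autoImplicit false

open MvPolynomial FF Pool.Agent.W603.PV Pool.Agent.W603.LV

namespace Pool.Agent.V5helper92.Lef

/-- the first projection -/
noncomputable def pr1 {a b : ℕ} (Y : Closed a b) : Mor Y a where
  ι := Unit
  F := fun _ i => X (Sum.inl i)
  bideg := fun _ => (1, 0)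
  form := fun _ i m hm => by
    rw [support_X, Finset.mem_singleton] at hm
    subst hm
    simp [Finsupp.single_apply]
  glue := fun _ _ i j u v _ => by rw [mul_comm]
  cover := fun u v h => by
    obtain ⟨i, hi⟩ := Function.ne_iff.1 h.1
    exact ⟨(), i, by simpa using hi⟩

/-- the second projection -/
noncomputable def pr2 {a b : ℕ} (Y : Closed a b) : Mor Y b where
  ι := Unit
  F := fun _ j => X (Sum.inr j)
  bideg := fun _ => (0, 1)
  form := fun _ i m hm => by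
    rw [support_X, Finset.mem_singleton] at hm
    subst hm
    simp [Finsupp.single_apply]
  glue := fun _ _ i j u v _ => by rw [mul_comm]
  cover := fun u v h => by
    obtain ⟨i, hi⟩ := Function.ne_iff.1 h.2.1
    exact ⟨(), i, by simpa using hi⟩

theorem deg_pr1 {a b : ℕ} {Y : Closed a b} (Γ : Curve Y) : (pr1 Y).deg Γ = pht ℂ Γ.s := by
  have h1 : ∀ t, (pr1 Y).at Γ t = Γ.s := by
    intro t; funext i; simp [Mor.at, pr1]
  have h2 : ∃ t, (pr1 Y).at Γ t ≠ 0 := ⟨(() : Unit), fun h => Γ.s_ne ((h1 _).symm.trans h)⟩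
  rw [Mor.deg_of _ _ h2, h1]

theorem deg_pr2 {a b : ℕ} {Y : Closed a b} (Γ : Curve Y) : (pr2 Y).deg Γ = pht ℂ Γ.x := by
  have h1 : ∀ t, (pr2 Y).at Γ t = Γ.x := by
    intro t; funext i; simp [Mor.at, pr2]
  have h2 : ∃ t, (pr2 Y).at Γ t ≠ 0 := ⟨(() : Unit), fun h => Γ.x_ne ((h1 _).symm.trans h)⟩
  rw [Mor.deg_of _ _ h2, h1]

theorem ge_sl {b D E : ℕ} {L : Type} [Field L] [Algebra ℂ L] (G : Poly 1 b) (x : Fin (b + 1) → L)
    (j : ℕ) (P : Place ℂ L) :
    Ge P (E * pord P x) (sl D E (fun m => algebraMap ℂ L (coeff m G)) x j) := by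
  unfold sl
  refine Ge.sum _ _ fun α hα => ?_
  have h1 := (Ge.const (P := P) (coeff (idx D j α) G)).mul
    (Ge.prod Finset.univ (fun i => x i ^ α i) (fun i => α i * pord P x)
      (fun i _ => (ge_pord P x i).pow (α i)))
  refine h1.mono (le_of_eq ?_)
  rw [zero_add, ← Finset.sum_mul]
  congr 1
  exact_mod_cast (mem_mono.1 hα).symm

/-- the curves on a general hypersurface -/
theorem deg_le {b D E : ℕ} (hbD : b ≤ D) {G : Poly 1 b} (hG : IsForm G D E)
    (hR : eval (fun m => coeff m G) (res b D E) ≠ 0) {Y : Closed 1 b} (Γ : Curve (Y.cut G hG)) :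
    pht ℂ Γ.s ≤ E * pht ℂ Γ.x := by
  refine pht_le_of_rel (D := D) Γ.s_ne Γ.x_ne
    (sl D E (fun m => algebraMap ℂ Γ.L (coeff m G)) Γ.x) (fun j P => ge_sl G Γ.x j P) ?_ ?_
  · obtain ⟨j, hj, h⟩ := exists_sl_ne hR Γ.x_ne
    exact ⟨j, hj.trans hbD, h⟩
  · rw [← aeval_eq hG]
    exact Γ.mem G (Or.inr rfl)

instance : IsFF ℂ (RatFunc ℂ) := by
  refine IsFF.of_finite (f := (RatFunc.X : RatFunc ℂ)) RatFunc.transcendental_X ?_
  rw [RatFunc.adjoin_X]
  exact Module.Finite.of_surjective (Algebra.linearMap (⊤ : IntermediateField ℂ (RatFunc ℂ))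
    (RatFunc ℂ)) fun z => ⟨⟨z, trivial⟩, rfl⟩

/-- the equations of `Y` vanish at the generic point of a fibre `ℙ^1 × {w} ⊆ Y` -/
theorem fibre_mem {b : ℕ} {F : Poly 1 b} {w : Fin (b + 1) → ℂ}
    (h : ∀ u : Fin 2 → ℂ, eval (Sum.elim u w) F = 0) :
    aeval (Sum.elim (![1, RatFunc.X] : Fin 2 → RatFunc ℂ)
      (fun i => algebraMap ℂ (RatFunc ℂ) (w i))) F = 0 := by
  have h1 : aeval (Sum.elim (![1, Polynomial.X] : Fin 2 → Polynomial ℂ)
      (fun i => Polynomial.C (w i))) F = 0 := by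
    apply Polynomial.funext
    intro t
    rw [Polynomial.eval_zero, ← h ![1, t], ← Polynomial.coe_evalRingHom, aeval_def, hom_eval₂]
    congr 1
    · ext x; simp
    · funext i
      rcases i with i | i
      · fin_cases i <;> simp
      · simp
  have h2 := congrArg (algebraMap (Polynomial ℂ) (RatFunc ℂ)) h1
  rw [map_zero, aeval_def, hom_eval₂] at h2
  rw [aeval_def, ← h2]
  congr 1
  funext i
  rcases i with i | i
  · fin_cases i
    · simp
    · simp
  · simp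

/-- the fibre `ℙ^1 × {w}` -/
noncomputable def fibre {b : ℕ} {Y : Closed 1 b} {w : Fin (b + 1) → ℂ} (hw : w ≠ 0)
    (hY : ∀ u : Fin 2 → ℂ, ∀ F ∈ Y.eqs, eval (Sum.elim u w) F = 0) : Curve Y where
  L := RatFunc ℂ
  fin := (inferInstance : IsFF ℂ (RatFunc ℂ)).ess
  trdeg := (inferInstance : IsFF ℂ (RatFunc ℂ)).trdeg
  s := ![1, RatFunc.X]
  x := fun i => algebraMap ℂ (RatFunc ℂ) (w i)
  s_ne := fun h => one_ne_zero (α := RatFunc ℂ) (congrFun h 0)
  x_ne := fun h => hw (by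
    funext i
    have := congrFun h i
    simpa using this)
  mem := fun F hF => fibre_mem fun u => hY u F hF
  gen := by
    rw [eq_top_iff, ← RatFunc.adjoin_X]
    refine IntermediateField.adjoin.mono ℂ _ _ ?_
    intro f hf
    rw [Set.mem_singleton_iff] at hf
    subst hf
    left
    exact ⟨1, 0, by simp⟩

theorem pht_const {b : ℕ} {w : Fin (b + 1) → ℂ} (hw : w ≠ 0) :
    pht ℂ (fun i => algebraMap ℂ (RatFunc ℂ) (w i)) = 0 := by
  have hne : (fun i => algebraMap ℂ (RatFunc ℂ) (w i)) ≠ 0 := fun h => hw (by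
    funext i
    have := congrFun h i
    simpa using this)
  have h0 : ∀ i, ∀ P : Place ℂ (RatFunc ℂ), P.ord (algebraMap ℂ (RatFunc ℂ) (w i)) = 0 := by
    intro i P
    by_cases h : w i = 0
    · rw [h, map_zero, P.ord_zero]
    · exact P.ord_const h
  rw [pht_eq hne ∅ (fun j P hP => absurd (h0 j P) hP), Finset.sum_empty]

theorem pht_line : 0 < pht ℂ (![1, RatFunc.X] : Fin 2 → RatFunc ℂ) := by
  classical
  obtain ⟨T, hT⟩ := exists_supp (k := ℂ) Finset.univ (![1, RatFunc.X] : Fin 2 → RatFunc ℂ)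
  have hT' : ∀ j, ∀ P : Place ℂ (RatFunc ℂ),
      P.ord ((![1, RatFunc.X] : Fin 2 → RatFunc ℂ) j) ≠ 0 → P ∈ T :=
    fun j => hT j (Finset.mem_univ j)
  have hX : (RatFunc.X : RatFunc ℂ) ≠ 0 := RatFunc.X_ne_zero
  have h1 : pht ℂ (![1, RatFunc.X] : Fin 2 → RatFunc ℂ) = hgt ℂ (RatFunc.X : RatFunc ℂ) := by
    rw [pht_eq (fun h => one_ne_zero (congrFun h 0)) T hT',
      hgt_finset (RatFunc.X : RatFunc ℂ) T (hT' 1)]
    refine Finset.sum_congr rfl fun P _ => ?_
    obtain ⟨i, hi, h⟩ := exists_pord P (f := (![1, RatFunc.X] : Fin 2 → RatFunc ℂ))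
      ⟨0, one_ne_zero⟩
    have h2 := pord_le P (f := (![1, RatFunc.X] : Fin 2 → RatFunc ℂ)) (j := 0) one_ne_zero
    have h3 := pord_le P (f := (![1, RatFunc.X] : Fin 2 → RatFunc ℂ)) (j := 1) hX
    have h4 : P.ord (1 : RatFunc ℂ) = 0 := P.ord_one
    simp only [Matrix.cons_val_zero, Matrix.cons_val_one] at h2 h3
    rw [h4] at h2
    fin_cases i
    · simp only [Fin.zero_eta, Matrix.cons_val_zero] at h
      rw [h4] at h; omega
    · have h' : P.ord (RatFunc.X : RatFunc ℂ) = pord P (![1, RatFunc.X] : Fin 2 → RatFunc ℂ) := h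
      have h3' : pord P (![1, RatFunc.X] : Fin 2 → RatFunc ℂ) ≤ P.ord (RatFunc.X : RatFunc ℂ) := h3
      change -pord P (![1, RatFunc.X] : Fin 2 → RatFunc ℂ) = max (-P.ord (RatFunc.X : RatFunc ℂ)) 0
      omega
  rw [h1]
  by_contra hcon
  push Not at hcon
  obtain ⟨c, hc⟩ := const_of_hgt hcon
  have := RatFunc.transcendental_X (K := ℂ)
  rw [hc] at this
  exact this (isAlgebraic_algebraMap c)

/-- the functional `E · H_2 - H_1` on `N_1(Y)` -/
noncomputable def fnl {b : ℕ} (Y : Closed 1 b) (E : ℕ) : N1 Y →ₗ[ℝ] ℝ :=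
  (numTriv Y).liftQ ((E : ℝ) • (pr2 Y).degCycle - (pr1 Y).degCycle) (by
    intro z hz
    rw [LinearMap.mem_ker, LinearMap.sub_apply, LinearMap.smul_apply, hz _ (pr2 Y),
      hz _ (pr1 Y)]
    simp)

theorem fnl_mk {b : ℕ} (Y : Closed 1 b) (E : ℕ) (z : Cycle Y) :
    fnl Y E ((numTriv Y).mkQ z) =
      z.sum fun Γ r => r * ((E : ℝ) * (pht ℂ Γ.x : ℝ) - (pht ℂ Γ.s : ℝ)) := by
  have h1 : fnl Y E ((numTriv Y).mkQ z) =
      (E : ℝ) * (pr2 Y).degCycle z - (pr1 Y).degCycle z := rfl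
  rw [h1]
  unfold Mor.degCycle
  rw [Finsupp.linearCombination_apply, Finsupp.linearCombination_apply, Finsupp.mul_sum,
    ← Finsupp.sum_sub]
  refine Finsupp.sum_congr fun Γ _ => ?_
  rw [deg_pr1, deg_pr2, smul_eq_mul, smul_eq_mul]
  ring

theorem continuous_lin {V W : Type*} [AddCommGroup V] [Module ℝ V] [AddCommGroup W] [Module ℝ W]
    (f : V →ₗ[ℝ] W) : @Continuous V W (moduleTopology ℝ V) (moduleTopology ℝ W) f := by
  let _ := moduleTopology ℝ V
  let _ := moduleTopology ℝ W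
  have : IsModuleTopology ℝ V := ⟨rfl⟩
  have : IsModuleTopology ℝ W := ⟨rfl⟩
  have : ContinuousAdd W := IsModuleTopology.toContinuousAdd ℝ W
  have : ContinuousSMul ℝ W := IsModuleTopology.toContinuousSMul ℝ W
  exact IsModuleTopology.continuous_of_linearMap f

theorem continuous_fnl {V : Type*} [AddCommGroup V] [Module ℝ V] (f : V →ₗ[ℝ] ℝ) :
    @Continuous V ℝ (moduleTopology ℝ V) _ f := by
  let _ := moduleTopology ℝ V
  have : IsModuleTopology ℝ V := ⟨rfl⟩
  exact IsModuleTopology.continuous_of_linearMap f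

/-- `i_*` maps `Eff_1(X)` to `Eff_1(Y)` -/
theorem push_eff {a b : ℕ} {X Y : Closed a b} (h : Y.eqs ⊆ X.eqs) :
    (push h) '' Eff1 X ⊆ Eff1 Y := by
  rintro _ ⟨ξ, hξ, rfl⟩
  let _ := moduleTopology ℝ (N1 X)
  let _ := moduleTopology ℝ (N1 Y)
  have h1 := map_mem_closure (continuous_lin (push h)) hξ (t := effClasses Y) (by
    rintro _ ⟨z, hz, rfl⟩
    refine ⟨pushCycle h z, ?_, rfl⟩
    intro Γ
    unfold pushCycle
    rw [Finsupp.lmapDomain_apply, Finsupp.mapDomain, Finsupp.sum_apply]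
    exact Finsupp.sum_nonneg fun Δ _ => by
      classical
      rw [Finsupp.single_apply]
      split_ifs
      · exact hz Δ
      · exact le_rfl)
  exact h1

theorem main {b D E : ℕ} (hbD : b ≤ D) {G : Poly 1 b} (hG : IsForm G D E)
    (hR : eval (fun m => coeff m G) (res b D E) ≠ 0) (Y : Closed 1 b) {w : Fin (b + 1) → ℂ}
    (hw : w ≠ 0) (hY : ∀ u : Fin 2 → ℂ, ∀ F ∈ Y.eqs, eval (Sum.elim u w) F = 0) :
    (push (Y.eqs_cut G hG)) '' Eff1 (Y.cut G hG) ⊂ Eff1 Y := by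
  refine ⟨push_eff _, ?_⟩
  intro hsub
  -- the functional is nonnegative on `i_* Eff_1(X)`
  have hpos : ∀ ξ ∈ Eff1 (Y.cut G hG), 0 ≤ fnl Y E (push (Y.eqs_cut G hG) ξ) := by
    intro ξ hξ
    let _ := moduleTopology ℝ (N1 (Y.cut G hG))
    have h1 := map_mem_closure
      (continuous_fnl ((fnl Y E).comp (push (Y.eqs_cut G hG)) : N1 (Y.cut G hG) →ₗ[ℝ] ℝ))
      hξ (t := Set.Ici 0) (by
      rintro _ ⟨z, hz, rfl⟩
      rw [Set.mem_Ici]
      change 0 ≤ fnl Y E ((numTriv Y).mkQ (pushCycle _ z))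
      rw [fnl_mk]
      unfold pushCycle
      rw [Finsupp.lmapDomain_apply, Finsupp.sum_mapDomain_index (fun _ => by rw [zero_mul])
        (fun _ _ _ => by rw [add_mul])]
      refine Finsupp.sum_nonneg fun Γ _ => mul_nonneg (hz Γ) ?_
      have h2 := deg_le hbD hG hR Γ
      have h3 : ((pht ℂ Γ.s : ℤ) : ℝ) ≤ ((E * pht ℂ Γ.x : ℤ) : ℝ) := by exact_mod_cast h2
      push_cast at h3
      exact sub_nonneg.2 h3)
    rw [isClosed_Ici.closure_eq] at h1
    exact h1
  -- but negative at the class of the fibre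
  have hfib : (numTriv Y).mkQ (Finsupp.single (fibre hw hY) 1) ∈ Eff1 Y := by
    let _ := moduleTopology ℝ (N1 Y)
    refine subset_closure ⟨_, ?_, rfl⟩
    intro Γ
    classical
    rw [Finsupp.single_apply]
    split_ifs
    · exact zero_le_one
    · exact le_rfl
  obtain ⟨ξ, hξ, he⟩ := hsub hfib
  have h1 := hpos ξ hξ
  rw [he, fnl_mk, Finsupp.sum_single_index (by rw [zero_mul])] at h1
  have h4 : pht ℂ (fibre hw hY).x = 0 := pht_const hw
  rw [h4] at h1
  have h3 : (0 : ℝ) < (pht ℂ (fibre hw hY).s : ℝ) := by exact_mod_cast pht_line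
  simp only [Int.cast_zero, mul_zero, zero_sub, one_mul] at h1
  linarith

end Pool.Agent.V5helper92.Lef
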